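import Mathlib

open MeasureTheory Set

namespace Pool.Agent.Q80.Proj

/-- The open-bottomed standard triangle has area `1/2`. -/
lemma vol_tri : (volume : Measure (ℝ × ℝ))
    (regionBetween (fun _ : ℝ => (0 : ℝ)) (fun x => 1 - x) (Icc 0 1)) = ENNReal.ofReal (1 / 2) := by
  rw [Measure.volume_eq_prod, volume_regionBetween_eq_integral]
  · congr 1
    rw [integral_Icc_eq_integral_Ioc, ← intervalIntegral.integral_of_le zero_le_one]
    have : ∀ y : ℝ, ((fun x : ℝ => 1 - x) - fun _ : ℝ => (0 : ℝ)) y = 1 - y := fun y => by simp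
    simp_rw [this]
    rw [intervalIntegral.integral_sub (by simp) (by simp)]
    simp
    norm_num
  · exact (continuous_const.integrableOn_Icc)
  · exact ((continuous_const.sub continuous_id).integrableOn_Icc)
  · exact measurableSet_Icc
  · intro x hx
    have := hx.2
    linarith

/-- A convex planar set has at least the area of each triangle with vertices in it. -/
lemma tri_le {K : Set (ℝ × ℝ)} (hK : Convex ℝ K) {a b c : ℝ × ℝ} (ha : a ∈ K) (hb : b ∈ K)
    (hc : c ∈ K) :
    ENNReal.ofReal (|(b.1 - a.1) * (c.2 - a.2) - (c.1 - a.1) * (b.2 - a.2)| / 2) ≤ volume K := by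
  set f : ℝ × ℝ →ₗ[ℝ] ℝ × ℝ := Matrix.toLin (Module.Basis.finTwoProd ℝ) (Module.Basis.finTwoProd ℝ)
    !![b.1 - a.1, c.1 - a.1; b.2 - a.2, c.2 - a.2] with hf
  set S := regionBetween (fun _ : ℝ => (0 : ℝ)) (fun x => 1 - x) (Icc 0 1) with hS
  have h1 : volume (f '' S) = ENNReal.ofReal |LinearMap.det f| * volume S :=
    Measure.addHaar_image_linearMap volume f S
  have hdet : LinearMap.det f =
      (b.1 - a.1) * (c.2 - a.2) - (c.1 - a.1) * (b.2 - a.2) := by
    rw [hf, LinearMap.det_toLin, Matrix.det_fin_two]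
    simp
  rw [hdet, hS, vol_tri, ← ENNReal.ofReal_mul (abs_nonneg _)] at h1
  have h2 : f '' S ⊆ (fun x => a + x) ⁻¹' K := by
    rintro _ ⟨⟨u, v⟩, huv, rfl⟩
    simp only [hS, regionBetween, mem_ofPred_eq, mem_Icc, mem_Ioo] at huv
    obtain ⟨⟨hu0, hu1⟩, hv0, hv1⟩ := huv
    show a + f (u, v) ∈ K
    have h3 : a + f (u, v) = (1 - u - v) • a + u • b + v • c := by
      rw [hf, Matrix.toLin_finTwoProd_apply]
      ext
      · simp; ring
      · simp; ring
    rw [h3]
    have h4 := hK.sum_mem (t := Finset.univ) (w := ![1 - u - v, u, v]) (z := ![a, b, c])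
      (by intro i _; fin_cases i <;> simp <;> linarith)
      (by simp [Fin.sum_univ_three]; ring)
      (by intro i _; fin_cases i <;> simp [ha, hb, hc])
    simpa [Fin.sum_univ_three] using h4
  calc ENNReal.ofReal (|(b.1 - a.1) * (c.2 - a.2) - (c.1 - a.1) * (b.2 - a.2)| / 2)
      = volume (f '' S) := by
        rw [hS, h1]; congr 1; ring
    _ ≤ volume ((fun x => a + x) ⁻¹' K) := measure_mono h2
    _ = volume K := measure_preimage_add volume a K

variable {E : Type*} [AddCommGroup E] [Module ℝ E] [TopologicalSpace E]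

/-- The area of the projection of `A` by a pair of functionals. -/
noncomputable def ar (A : Set E) (x y : E →L[ℝ] ℝ) : ℝ :=
  (volume ((fun p => (x p, y p)) '' A)).toReal

lemma isCompact_im {A : Set E} (hk : IsCompact A) (x y : E →L[ℝ] ℝ) :
    IsCompact ((fun p => (x p, y p)) '' A) :=
  hk.image (x.continuous.prodMk y.continuous)

lemma convex_im {A : Set E} (hc : Convex ℝ A) (x y : E →L[ℝ] ℝ) :
    Convex ℝ ((fun p => (x p, y p)) '' A) := by
  exact hc.linear_image ((x.toLinearMap).prod (y.toLinearMap))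

lemma ar_nonneg (A : Set E) (x y : E →L[ℝ] ℝ) : 0 ≤ ar A x y := ENNReal.toReal_nonneg

lemma vol_eq {A : Set E} (hk : IsCompact A) (x y : E →L[ℝ] ℝ) :
    volume ((fun p => (x p, y p)) '' A) = ENNReal.ofReal (ar A x y) := by
  rw [ar, ENNReal.ofReal_toReal]
  exact (isCompact_im hk x y).measure_lt_top.ne

/-- The three-term inequality: with `w` the widths,
`w_y * area(x,z) ≤ w_x * area(y,z) + 4 w_z * area(x,y)`. -/
lemma three_term {A : Set E} (hc : Convex ℝ A) (hk : IsCompact A) (x y z : E →L[ℝ] ℝ)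
    {mx Mx my My mz Mz : ℝ} (hx : ∀ p ∈ A, x p ∈ Icc mx Mx) (hz : ∀ p ∈ A, z p ∈ Icc mz Mz)
    {B T : E} (hB : B ∈ A) (hT : T ∈ A) (hBy : y B = my) (hTy : y T = My) (hlt : my < My) :
    (My - my) * ar A x z ≤ (Mx - mx) * ar A y z + 4 * (Mz - mz) * ar A x y := by
  set W := My - my with hW
  have hWpos : 0 < W := by rw [hW]; linarith
  set s := (x T - x B) / W with hs
  set D := 2 * ar A x y / W with hD
  have hD0 : 0 ≤ D := by
    rw [hD]; exact div_nonneg (mul_nonneg (by norm_num) (ar_nonneg _ _ _)) hWpos.le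
  have hsabs : |s| ≤ (Mx - mx) / W := by
    rw [hs, abs_div, abs_of_pos hWpos]
    gcongr
    rw [abs_le]
    have h1 := hx T hT
    have h2 := hx B hB
    simp only [mem_Icc] at h1 h2
    constructor <;> linarith [h1.1, h1.2, h2.1, h2.2]
  have hdev : ∀ p ∈ A, |x p - (x B + s * (y p - y B))| ≤ D := by
    intro p hp
    have h1 := tri_le (convex_im hc x y) (a := (x B, y B)) (b := (x T, y T)) (c := (x p, y p))
      ⟨B, hB, rfl⟩ ⟨T, hT, rfl⟩ ⟨p, hp, rfl⟩
    rw [vol_eq hk, ENNReal.ofReal_le_ofReal_iff (ar_nonneg _ _ _)] at h1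
    simp only at h1
    have h2 : (x T - x B) * (y p - y B) - (x p - x B) * (y T - y B) =
        - (W * (x p - (x B + s * (y p - y B)))) := by
      have h3 : y T - y B = W := by rw [hTy, hBy]
      have h4 : x T - x B = W * s := by rw [hs]; field_simp
      rw [h3, h4]; ring
    rw [h2, abs_neg, abs_mul, abs_of_pos hWpos] at h1
    rw [hD, le_div_iff₀ hWpos]
    linarith
  -- the slices
  have hsl : ∀ c : ℝ, volume ((fun u => (u, c)) ⁻¹' ((fun p => (x p, z p)) '' A)) ≤
      ENNReal.ofReal |s| * volume ((fun u => (u, c)) ⁻¹' ((fun p => (y p, z p)) '' A)) +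
        (Icc mz Mz).indicator (fun _ => ENNReal.ofReal (2 * D)) c := by
    intro c
    set S1 : Set ℝ := (fun u => (u, c)) ⁻¹' ((fun p => (x p, z p)) '' A) with hS1
    rcases S1.eq_empty_or_nonempty with he | hne
    · rw [he]; simp
    have hcl : IsClosed S1 := (isCompact_im hk x z).isClosed.preimage (by fun_prop)
    have hbd : S1 ⊆ Icc mx Mx := by
      rintro u ⟨p, hp, hpu⟩
      have := hx p hp
      simp only [Prod.mk.injEq] at hpu
      rwa [hpu.1] at this
    have hcp : IsCompact S1 := isCompact_Icc.of_isClosed_subset hcl hbd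
    obtain ⟨a1, ha1, ha1'⟩ := hcp.exists_isLeast hne
    obtain ⟨b1, hb1, hb1'⟩ := hcp.exists_isGreatest hne
    obtain ⟨P, hP, hPu⟩ := ha1
    obtain ⟨R, hR, hRu⟩ := hb1
    simp only [Prod.mk.injEq] at hPu hRu
    have hcz : c ∈ Icc mz Mz := by
      have := hz P hP
      rwa [hPu.2] at this
    rw [indicator_of_mem hcz]
    have hv1 : volume S1 ≤ ENNReal.ofReal (b1 - a1) := by
      rw [← Real.volume_Icc]
      exact measure_mono fun u hu => ⟨ha1' hu, hb1' hu⟩
    have hv2 : ENNReal.ofReal |y R - y P| ≤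
        volume ((fun u => (u, c)) ⁻¹' ((fun p => (y p, z p)) '' A)) := by
      rw [← Real.volume_interval]
      apply measure_mono
      intro u hu
      rw [← segment_eq_uIcc] at hu
      obtain ⟨α, β, hα, hβ, hαβ, rfl⟩ := hu
      refine ⟨α • P + β • R, hc hP hR hα hβ hαβ, ?_⟩
      simp only [map_add, map_smul, smul_eq_mul, Prod.mk.injEq, true_and]
      rw [hPu.2, hRu.2, ← add_mul, hαβ, one_mul]
    have hlen : b1 - a1 ≤ |s| * |y R - y P| + 2 * D := by
      have h1 := abs_le.mp (hdev P hP)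
      have h2 := abs_le.mp (hdev R hR)
      rw [hPu.1] at h1
      rw [hRu.1] at h2
      have h3 : s * (y R - y P) ≤ |s| * |y R - y P| := by
        rw [← abs_mul]; exact le_abs_self _
      nlinarith [h1.1, h2.2]
    calc volume S1 ≤ ENNReal.ofReal (b1 - a1) := hv1
      _ ≤ ENNReal.ofReal (|s| * |y R - y P| + 2 * D) := ENNReal.ofReal_le_ofReal hlen
      _ = ENNReal.ofReal |s| * ENNReal.ofReal |y R - y P| + ENNReal.ofReal (2 * D) := by
          rw [ENNReal.ofReal_add (by positivity) (by positivity),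
            ENNReal.ofReal_mul (abs_nonneg _)]
      _ ≤ _ := by gcongr
  have hmz : mz ≤ Mz := by
    have := hz B hB
    exact this.1.trans this.2
  have hint : volume ((fun p => (x p, z p)) '' A) ≤
      ENNReal.ofReal |s| * volume ((fun p => (y p, z p)) '' A) +
        ENNReal.ofReal (2 * D) * ENNReal.ofReal (Mz - mz) := by
    have hm1 := (isCompact_im hk x z).isClosed.measurableSet
    have hm2 := (isCompact_im hk y z).isClosed.measurableSet
    rw [Measure.volume_eq_prod, Measure.prod_apply_symm hm1, Measure.prod_apply_symm hm2]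
    calc ∫⁻ c, volume ((fun u => (u, c)) ⁻¹' ((fun p => (x p, z p)) '' A))
        ≤ ∫⁻ c, (ENNReal.ofReal |s| * volume ((fun u => (u, c)) ⁻¹' ((fun p => (y p, z p)) '' A)) +
        (Icc mz Mz).indicator (fun _ => ENNReal.ofReal (2 * D)) c) := lintegral_mono hsl
      _ = _ := by
        rw [lintegral_add_right _ (measurable_const.indicator measurableSet_Icc),
          lintegral_const_mul _ (measurable_measure_prodMk_right hm2),
          lintegral_indicator measurableSet_Icc, setLIntegral_const, Real.volume_Icc]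
  rw [vol_eq hk, vol_eq hk, ← ENNReal.ofReal_mul (abs_nonneg _),
    ← ENNReal.ofReal_mul (by positivity), ← ENNReal.ofReal_add
      (mul_nonneg (abs_nonneg _) (ar_nonneg _ _ _))
      (mul_nonneg (by positivity) (by linarith)),
    ENNReal.ofReal_le_ofReal_iff] at hint
  · have h5 : |s| * ar A y z ≤ (Mx - mx) / W * ar A y z := by
      gcongr
      exact ar_nonneg _ _ _
    have h6 : ar A x z ≤ (Mx - mx) / W * ar A y z + 2 * D * (Mz - mz) := by linarith
    have h7 : W * ar A x z ≤ W * ((Mx - mx) / W * ar A y z + 2 * D * (Mz - mz)) := by gcongr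
    have h8 : W * ((Mx - mx) / W * ar A y z + 2 * D * (Mz - mz)) =
        (Mx - mx) * ar A y z + 4 * (Mz - mz) * ar A x y := by
      rw [hD]; field_simp; ring
    linarith
  · exact add_nonneg (mul_nonneg (abs_nonneg _) (ar_nonneg _ _ _))
      (mul_nonneg (by positivity) (by linarith))

end Pool.Agent.Q80.Proj
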